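import Pool.Agent.H13.TB.Sum

/-!
# Three agents: lower bounds for stationary probabilities from test functions
-/

set_option autoImplicit false

open scoped ENNReal BigOperators

namespace Pool.Agent.H13.TB

open Pool.Agent.H21.TB

/-- sum of the squares of the balances -/
def V2 (x y : ℤ) : ℤ := x ^ 2 + y ^ 2 + (x + y) ^ 2

/-- far from the origin -/
def Far (R x y : ℤ) : Prop := R < x ∨ x < -R ∨ R < y ∨ y < -R ∨ R < x + y ∨ x + y < -R

theorem c4_add (u v : ℤ) : c4 u v + c4 v u = 4 := by
  unfold c4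
  rcases lt_trichotomy u v with h | h | h
  · rw [if_pos h, if_neg h.not_gt, if_pos h]; norm_num
  · have h1 : ¬ u < v := by omega
    have h2 : ¬ v < u := by omega
    rw [if_neg h1, if_neg h2, if_neg h2, if_neg h1]; norm_num
  · rw [if_neg h.not_gt, if_pos h, if_pos h]; norm_num

theorem c4_min (u v : ℤ) : c4 u v * u + c4 v u * v = 4 * min u v := by
  unfold c4
  rcases lt_trichotomy u v with h | h | h
  · rw [if_pos h, if_neg h.not_gt, if_pos h, min_eq_left h.le]; ring
  · have h1 : ¬ u < v := by omega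
    have h2 : ¬ v < u := by omega
    rw [if_neg h1, if_neg h2, if_neg h2, if_neg h1, h, min_self]; ring
  · rw [if_neg h.not_gt, if_pos h, if_pos h, min_eq_right h.le]; ring

theorem WW_V2 (e x y : ℤ) : WW (fun a b => e * V2 a b) x y (-x - y) =
    54 * (e * V2 x y) + e * (72 + 24 * (min x y + min x (-x - y) + min y (-x - y))) := by
  have a1 := c4_add x y
  have a2 := c4_add x (-x - y)
  have a3 := c4_add y (-x - y)
  have m1 := c4_min x y
  have m2 := c4_min x (-x - y)
  have m3 := c4_min y (-x - y)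
  unfold WW V2
  linear_combination (e * (3 * (x ^ 2 + y ^ 2 + (x + y) ^ 2) + 4)) * (a1 + a2 + a3) +
    6 * e * (m1 + m2 + m3)

theorem WW_zero (K : ℤ → ℤ → ℤ) (e R x y z : ℤ) (hfar : ∀ x y, Far R x y → K x y = 0)
    (h : Far (R + 1) x y) :
    WW (fun a b => K a b + e * V2 a b) x y z = WW (fun a b => e * V2 a b) x y z := by
  have k1 : K x y = 0 := hfar _ _ (by unfold Far at *; omega)
  have k2 : K (x + 1) (y - 1) = 0 := hfar _ _ (by unfold Far at *; omega)
  have k3 : K (x + 1) y = 0 := hfar _ _ (by unfold Far at *; omega)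
  have k4 : K (x - 1) (y + 1) = 0 := hfar _ _ (by unfold Far at *; omega)
  have k5 : K x (y + 1) = 0 := hfar _ _ (by unfold Far at *; omega)
  have k6 : K (x - 1) y = 0 := hfar _ _ (by unfold Far at *; omega)
  have k7 : K x (y - 1) = 0 := hfar _ _ (by unfold Far at *; omega)
  unfold WW
  simp only [k1, k2, k3, k4, k5, k6, k7, zero_add]

theorem all_ineq (K : ℤ → ℤ → ℤ) (F : ℤ → Bool) (R e N C : ℤ) (he : 0 ≤ e) (hN : 0 < N)
    (hRC : 54 * C ≤ 36 * e * R) (hfar : ∀ x y, Far R x y → K x y = 0)
    (hbox : ∀ x y, ¬ Far (R + 1) x y → WW (fun a b => K a b + e * V2 a b) x y (-x - y) + 54 * C ≤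
      54 * (K x y + e * V2 x y) + 54 * N * (if F x = true then 1 else 0)) (x y : ℤ) :
    WW (fun a b => K a b + e * V2 a b) x y (-x - y) + 54 * C ≤
      54 * (K x y + e * V2 x y) + 54 * N * (if F x = true then 1 else 0) := by
  by_cases h : Far (R + 1) x y
  · rw [WW_zero K e R x y _ hfar h, WW_V2, hfar x y (by unfold Far at *; omega)]
    have h1 : 2 * (min x y + min x (-x - y) + min y (-x - y)) ≤ -3 * (R + 2) := by
      unfold Far at h
      omega
    have h2 : 0 ≤ 54 * N * (if F x = true then 1 else 0) := by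
      split_ifs
      · omega
      · simp
    have h3 : e * (72 + 24 * (min x y + min x (-x - y) + min y (-x - y))) ≤ e * (-36 * R) :=
      mul_le_mul_of_nonneg_left (by linarith) he
    linarith
  · exact hbox x y h

end Pool.Agent.H13.TB
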