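import Pool.Agent.H13.TB.Tab

/-!
# Three agents: four lower bounds
-/

set_option autoImplicit false

open scoped ENNReal BigOperators

namespace Pool.Agent.H13.TB

open Pool.Agent.H21.TB

/-- table of the test function -/
def tT1 : List (List ℕ) :=
  [[],
   [],
   [],
   [0, 0, 0, 0, 0, 11, 131, 200, 200, 131, 11],
   [0, 0, 0, 0, 145, 358, 493, 539, 493, 358, 145],
   [0, 0, 124, 338, 573, 769, 879, 879, 769, 573, 338, 124],
   [0, 98, 321, 566, 784, 929, 975, 929, 784, 566, 321, 98],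
   [6, 154, 357, 584, 791, 913, 913, 791, 584, 357, 154, 6],
   [0, 0, 164, 362, 497, 543, 497, 362, 164],
   [0, 0, 7, 108, 172, 172, 108, 7],
   [],
   [],
   []]

/-- the event -/
def FT1 : ℤ → Bool := fun x => decide (1 < x) || decide (x < -1)

set_option maxRecDepth 100000 in
theorem chk_T1 : chk tT1 FT1 6 18 90 21 975 = true := by
  decide +kernel

theorem bound_T1 {π : PMF (Fin 3 → ℤ)} (hπ : IsStationary π) (i : Fin 3) :
    ENNReal.ofReal ((21 : ℤ) : ℝ) ≤ ENNReal.ofReal ((90 : ℤ) : ℝ) * prF π i FT1 :=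
  of_chk chk_T1 (by norm_num) (by norm_num) (by norm_num) (by norm_num) (by norm_num) hπ i

/-- table of the test function -/
def tT2 : List (List ℕ) :=
  [[],
   [],
   [],
   [0, 0, 0, 0, 0, 0, 67, 274, 412, 463, 412, 274, 67],
   [0, 0, 0, 0, 24, 396, 738, 980, 1099, 1099, 980, 738, 396, 24],
   [0, 0, 0, 295, 738, 1193, 1545, 1738, 1801, 1738, 1545, 1193, 738, 295],
   [0, 0, 332, 820, 1293, 1675, 1940, 2076, 2076, 1940, 1675, 1293, 820, 332],
   [0, 208, 689, 1183, 1607, 1923, 2113, 2173, 2113, 1923, 1607, 1183, 689, 208],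
   [19, 399, 870, 1330, 1715, 1983, 2117, 2117, 1983, 1715, 1330, 870, 399, 19],
   [79, 403, 814, 1273, 1643, 1842, 1905, 1842, 1643, 1273, 814, 403, 79],
   [0, 104, 456, 794, 1037, 1157, 1157, 1037, 794, 456, 104],
   [0, 0, 78, 271, 409, 456, 409, 271, 78],
   [],
   [],
   []]

/-- the event -/
def FT2 : ℤ → Bool := fun x => decide (2 < x) || decide (x < -2)

set_option maxRecDepth 100000 in
theorem chk_T2 : chk tT2 FT2 7 27 135 11 2173 = true := by
  decide +kernel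

theorem bound_T2 {π : PMF (Fin 3 → ℤ)} (hπ : IsStationary π) (i : Fin 3) :
    ENNReal.ofReal ((11 : ℤ) : ℝ) ≤ ENNReal.ofReal ((135 : ℤ) : ℝ) * prF π i FT2 :=
  of_chk chk_T2 (by norm_num) (by norm_num) (by norm_num) (by norm_num) (by norm_num) hπ i

/-- table of the test function -/
def tT3 : List (List ℕ) :=
  [[],
   [],
   [],
   [0, 0, 0, 0, 0, 0, 0, 97, 625, 1018, 1227, 1227, 1018, 625, 97],
   [0, 0, 0, 0, 0, 162, 1036, 1885, 2525, 2914, 3044, 2914, 2525, 1885, 1036, 162],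
   [0, 0, 0, 0, 842, 2068, 3230, 4075, 4634, 4907, 4907, 4634, 4075, 3230, 2068, 842],
   [0, 0, 0, 1005, 2328, 3569, 4593, 5333, 5755, 5893, 5755, 5333, 4593, 3569, 2328, 1005],
   [0, 0, 817, 2186, 3507, 4618, 5463, 6032, 6318, 6318, 6032, 5463, 4618, 3507, 2186, 817],
   [0, 398, 1701, 3079, 4291, 5256, 5949, 6361, 6495, 6361, 5949, 5256, 4291, 3079, 1701, 398],
   [0, 968, 2314, 3606, 4703, 5542, 6099, 6375, 6375, 6099, 5542, 4703, 3606, 2314, 968],
   [211, 1289, 2557, 3767, 4781, 5509, 5927, 6063, 5927, 5509, 4781, 3767, 2557, 1289, 211],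
   [283, 1196, 2393, 3564, 4409, 4963, 5235, 5235, 4963, 4409, 3564, 2393, 1196, 283],
   [0, 399, 1274, 2105, 2738, 3124, 3253, 3124, 2738, 2105, 1274, 399],
   [0, 0, 160, 655, 1052, 1261, 1261, 1052, 655, 160],
   [],
   [],
   []]

/-- the event -/
def FT3 : ℤ → Bool := fun x => decide (3 < x) || decide (x < -3)

set_option maxRecDepth 100000 in
theorem chk_T3 : chk tT3 FT3 8 65 324 9 6495 = true := by
  decide +kernel

theorem bound_T3 {π : PMF (Fin 3 → ℤ)} (hπ : IsStationary π) (i : Fin 3) :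
    ENNReal.ofReal ((9 : ℤ) : ℝ) ≤ ENNReal.ofReal ((324 : ℤ) : ℝ) * prF π i FT3 :=
  of_chk chk_T3 (by norm_num) (by norm_num) (by norm_num) (by norm_num) (by norm_num) hπ i

/-- table of the test function -/
def tl1 : List (List ℕ) :=
  [[],
   [],
   [],
   [],
   [],
   [0, 0, 0, 0, 0, 0, 0, 0, 0, 230, 451, 532, 451, 230],
   [0, 0, 0, 0, 0, 0, 0, 257, 784, 1191, 1391, 1391, 1191, 784, 257],
   [0, 0, 0, 0, 0, 0, 565, 1308, 1934, 2273, 2383, 2273, 1934, 1308, 565],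
   [0, 0, 0, 35, 517, 1209, 1937, 2558, 3036, 3293, 3293, 3036, 2558, 1937, 1209, 517, 35],
   [0, 0, 38, 673, 1446, 2187, 2806, 3263, 3534, 3617, 3534, 3263, 2806, 2187, 1446, 673, 38],
   [0, 0, 571, 1372, 2132, 2765, 3237, 3528, 3665, 3665, 3528, 3237, 2765, 2132, 1372, 571],
   [0, 303, 1066, 1834, 2491, 2990, 3342, 3559, 3632, 3559, 3342, 2990, 2491, 1834, 1066, 303],
   [0, 613, 1351, 2020, 2573, 3001, 3291, 3439, 3439, 3291, 3001, 2573, 2020, 1351, 613],
   [158, 755, 1411, 2012, 2504, 2866, 3088, 3164, 3088, 2866, 2504, 2012, 1411, 755, 158],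
   [191, 729, 1326, 1862, 2287, 2580, 2730, 2730, 2580, 2287, 1862, 1326, 729, 191],
   [115, 581, 1105, 1569, 1923, 2144, 2219, 2144, 1923, 1569, 1105, 581, 115],
   [0, 338, 762, 1143, 1420, 1564, 1564, 1420, 1143, 762, 338],
   [0, 57, 345, 618, 806, 874, 806, 618, 345, 57],
   [0, 0, 0, 100, 194, 194, 100]]

/-- the event -/
def Fl1 : ℤ → Bool := fun x => decide (x < -1)

set_option maxRecDepth 100000 in
theorem chk_l1 : chk tl1 Fl1 9 40 200 26 3665 = true := by
  decide +kernel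

theorem bound_l1 {π : PMF (Fin 3 → ℤ)} (hπ : IsStationary π) (i : Fin 3) :
    ENNReal.ofReal ((26 : ℤ) : ℝ) ≤ ENNReal.ofReal ((200 : ℤ) : ℝ) * prF π i Fl1 :=
  of_chk chk_l1 (by norm_num) (by norm_num) (by norm_num) (by norm_num) (by norm_num) hπ i

end Pool.Agent.H13.TB
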