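import Pool.Agent.H13.TB.Cert

/-!
# Three agents: integration of the test functions
-/

set_option autoImplicit false

open scoped ENNReal BigOperators Topology
open Filter

namespace Pool.Agent.H13.TB

open Pool.Agent.H21.TB

/-- the truncated test function -/
def gB (K : ℤ → ℤ → ℤ) (e B : ℤ) (a b : ℤ) : ℤ := K a b + e * min (V2 a b) B

theorem V2_far {R x y B : ℤ} (hR : 0 ≤ R) (hB : 6 * (R + 2) ^ 2 ≤ B) (h : B ≤ V2 x y) :
    Far (R + 1) x y := by
  by_contra hc
  unfold Far at hc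
  push Not at hc
  obtain ⟨h1, h2, h3, h4, h5, h6⟩ := hc
  have e1 : x ^ 2 ≤ (R + 1) ^ 2 := by nlinarith
  have e2 : y ^ 2 ≤ (R + 1) ^ 2 := by nlinarith
  have e3 : (x + y) ^ 2 ≤ (R + 1) ^ 2 := by nlinarith
  unfold V2 at h
  nlinarith

theorem step_sum (s : Fin 3 → ℤ) (ω : Draw 3) (hs : ∑ k, s k = 0) : ∑ k, step s ω k = 0 := by
  unfold step
  rw [Finset.sum_add_distrib, Finset.sum_sub_distrib, hs]
  simp

theorem third (s : Fin 3 → ℤ) (i : Fin 3) (hs : ∑ k, s k = 0) :
    s (i + 2) = -s i - s (i + 1) := by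
  rw [Fin.sum_univ_three] at hs
  fin_cases i
  · show s 2 = -s 0 - s 1
    linarith
  · show s 0 = -s 1 - s 2
    linarith
  · show s 1 = -s 2 - s 0
    linarith

theorem key_int (K : ℤ → ℤ → ℤ) (F : ℤ → Bool) (R e N C B : ℤ) (hR : 0 ≤ R) (he : 0 ≤ e)
    (hN : 0 < N)
    (hB : 6 * (R + 2) ^ 2 ≤ B) (hfar : ∀ x y, Far R x y → K x y = 0)
    (hall : ∀ x y, WW (fun a b => K a b + e * V2 a b) x y (-x - y) + 54 * C ≤
      54 * (K x y + e * V2 x y) + 54 * N * (if F x = true then 1 else 0))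
    (s : Fin 3 → ℤ) (i : Fin 3) (hs : ∑ k, s k = 0) :
    ∑ ω : Draw 3, gB K e B (step s ω i) (step s ω (i + 1)) + 54 * C ≤
      54 * gB K e B (s i) (s (i + 1)) + 54 * N * (if F (s i) = true then 1 else 0) +
        54 * C * (if B ≤ V2 (s i) (s (i + 1)) then 1 else 0) := by
  by_cases h : B ≤ V2 (s i) (s (i + 1))
  · rw [if_pos h]
    have hF := V2_far hR hB h
    have h1 : ∀ ω : Draw 3, gB K e B (step s ω i) (step s ω (i + 1)) ≤ e * B := by
      intro ω
      have h2 : K (step s ω i) (step s ω (i + 1)) = 0 := by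
        apply hfar
        have hi : step s ω i = s i - (if i = ω.1 then 1 else 0) +
          (if i = provider s ω.2.1 ω.2.2.1 ω.2.2.2 then 1 else 0) := rfl
        have hj : step s ω (i + 1) = s (i + 1) - (if i + 1 = ω.1 then 1 else 0) +
          (if i + 1 = provider s ω.2.1 ω.2.2.1 ω.2.2.2 then 1 else 0) := rfl
        have hk := third s i hs
        have hk' := third (step s ω) i (step_sum s ω hs)
        have hkk : step s ω (i + 2) = s (i + 2) - (if i + 2 = ω.1 then 1 else 0) +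
          (if i + 2 = provider s ω.2.1 ω.2.2.1 ω.2.2.2 then 1 else 0) := rfl
        unfold Far at *
        rw [hi, hj] at hk' ⊢
        rw [hkk] at hk'
        split_ifs at hk' ⊢ <;> omega
      unfold gB
      rw [h2, zero_add]
      exact mul_le_mul_of_nonneg_left (min_le_right _ _) he
    have h3 : ∑ ω : Draw 3, gB K e B (step s ω i) (step s ω (i + 1)) ≤ 54 * (e * B) := by
      refine (Finset.sum_le_sum fun ω _ => h1 ω).trans ?_
      rw [Finset.sum_const]
      have : (Finset.univ : Finset (Draw 3)).card = 54 := by decide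
      rw [this]
      simp
    have h4 : gB K e B (s i) (s (i + 1)) = e * B := by
      unfold gB
      rw [hfar _ _ (by unfold Far at *; omega), min_eq_right h, zero_add]
    rw [h4]
    have h5 : 0 ≤ 54 * N * (if F (s i) = true then 1 else 0) := by
      split_ifs
      · omega
      · simp
    linarith
  · rw [if_neg h, mul_zero, add_zero]
    have h1 := hall (s i) (s (i + 1))
    rw [← third s i hs, ← sum_draw3] at h1
    have h2 : gB K e B (s i) (s (i + 1)) = K (s i) (s (i + 1)) + e * V2 (s i) (s (i + 1)) := by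
      unfold gB
      rw [min_eq_left (by omega)]
    rw [h2]
    refine le_trans ?_ h1
    gcongr with ω _
    unfold gB
    gcongr
    exact min_le_left _ _

/-- the probability under `π` of a property of the balance of agent `i` -/
noncomputable def prF (π : PMF (Fin 3 → ℤ)) (i : Fin 3) (F : ℤ → Bool) : ℝ≥0∞ :=
  ∑' s : Fin 3 → ℤ, if F (s i) = true then π s else 0

theorem cert_B (K : ℤ → ℤ → ℤ) (F : ℤ → Bool) (R e N C B KB : ℤ) (hR : 0 ≤ R) (he : 0 ≤ e)
    (hN : 0 < N) (hC : 0 ≤ C) (hB : 6 * (R + 2) ^ 2 ≤ B) (hfar : ∀ x y, Far R x y → K x y = 0)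
    (hK0 : ∀ x y, 0 ≤ K x y) (hKB : ∀ x y, K x y ≤ KB)
    (hall : ∀ x y, WW (fun a b => K a b + e * V2 a b) x y (-x - y) + 54 * C ≤
      54 * (K x y + e * V2 x y) + 54 * N * (if F x = true then 1 else 0))
    {π : PMF (Fin 3 → ℤ)} (hπ : IsStationary π) (i : Fin 3) :
    ENNReal.ofReal C ≤ ENNReal.ofReal N * prF π i F +
      ENNReal.ofReal C * ∑' s : Fin 3 → ℤ, if B ≤ V2 (s i) (s (i + 1)) then π s else 0 := by
  have hV : ∀ a b : ℤ, 0 ≤ V2 a b := fun a b => by unfold V2; positivity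
  have hB0 : 0 ≤ B := le_trans (by positivity) hB
  have hg0 : ∀ a b : ℤ, 0 ≤ gB K e B a b := fun a b => by
    unfold gB
    exact add_nonneg (hK0 a b) (mul_nonneg he (le_min (hV a b) hB0))
  have hgB : ∀ a b : ℤ, gB K e B a b ≤ KB + e * B := fun a b => by
    unfold gB
    exact add_le_add (hKB a b) (mul_le_mul_of_nonneg_left (min_le_right _ _) he)
  have hC' : (0 : ℝ) ≤ C := by exact_mod_cast hC
  have hN' : (0 : ℝ) ≤ N := by exact_mod_cast hN.le
  have key := drift hπ (by norm_num : 0 < 3) (fun s => (gB K e B (s i) (s (i + 1)) : ℝ))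
    (fun _ => (C : ℝ))
    (fun s => N * (if F (s i) = true then 1 else 0) +
      C * (if B ≤ V2 (s i) (s (i + 1)) then 1 else 0)) ((KB + e * B : ℤ) : ℝ)
    (fun s => by exact_mod_cast hg0 _ _) (fun s => by exact_mod_cast hgB _ _)
    (fun _ => hC') (fun s => by split_ifs <;> positivity) ?_
  · rw [ENNReal.tsum_mul_right, π.tsum_coe, one_mul] at key
    refine key.trans (le_of_eq ?_)
    unfold prF
    rw [← ENNReal.tsum_mul_left, ← ENNReal.tsum_mul_left, ← ENNReal.tsum_add]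
    refine tsum_congr fun s => ?_
    rw [ENNReal.ofReal_add (by split_ifs <;> positivity) (by split_ifs <;> positivity), mul_add]
    congr 1
    · split_ifs <;> simp [mul_comm]
    · split_ifs <;> simp [mul_comm]
  · intro s hs
    have h1 := key_int K F R e N C B hR he hN hB hfar hall s i hs
    have h2 : ((∑ ω : Draw 3, gB K e B (step s ω i) (step s ω (i + 1)) + 54 * C : ℤ) : ℝ) ≤
      ((54 * gB K e B (s i) (s (i + 1)) + 54 * N * (if F (s i) = true then 1 else 0) +
        54 * C * (if B ≤ V2 (s i) (s (i + 1)) then 1 else 0) : ℤ) : ℝ) := by exact_mod_cast h1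
    push_cast at h2
    unfold av
    have h3 : (2 * ((3 : ℕ) : ℝ) ^ 3) = 54 := by norm_num
    rw [h3]
    have h4 : (∑ ω : Draw 3, ((gB K e B (step s ω i) (step s ω (i + 1)) : ℤ) : ℝ)) / 54 * 54 =
      ∑ ω : Draw 3, ((gB K e B (step s ω i) (step s ω (i + 1)) : ℤ) : ℝ) := by
      field_simp
    linarith

theorem tail_zero (π : PMF (Fin 3 → ℤ)) (i : Fin 3) {ε : ℝ≥0∞} (hε : 0 < ε) (B₀ : ℤ) :
    ∃ B : ℤ, B₀ ≤ B ∧ (∑' s : Fin 3 → ℤ, if B ≤ V2 (s i) (s (i + 1)) then π s else 0) ≤ ε := by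
  classical
  have h1 := ENNReal.tendsto_tsum_compl_atTop_zero (f := fun s => π s)
    (by rw [π.tsum_coe]; exact ENNReal.one_ne_top)
  have h2 := (h1.eventually (Iic_mem_nhds hε)).exists
  obtain ⟨A, hA⟩ := h2
  obtain ⟨B, hB⟩ : ∃ B : ℤ, ∀ s ∈ A, V2 (s i) (s (i + 1)) < B := by
    refine ⟨(∑ s ∈ A, V2 (s i) (s (i + 1))) + 1, fun s hs => ?_⟩
    have := Finset.single_le_sum (f := fun s => V2 (s i) (s (i + 1)))
      (fun s _ => by unfold V2; positivity) hs
    omega
  refine ⟨max B B₀, le_max_right _ _, le_trans ?_ hA⟩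
  rw [← tsum_subtype_eq_of_support_subset (s := {s | s ∉ A})]
  · refine ENNReal.tsum_le_tsum fun s => ?_
    split_ifs
    · exact le_rfl
    · exact zero_le
  · intro s hs
    simp only [Function.mem_support, ne_eq, ite_eq_right_iff, not_forall] at hs
    obtain ⟨hs1, -⟩ := hs
    intro hsA
    have := hB s hsA
    have h3 : B ≤ V2 (s i) (s (i + 1)) := (le_max_left _ _).trans hs1
    omega

theorem cert (K : ℤ → ℤ → ℤ) (F : ℤ → Bool) (R e N C KB : ℤ) (hR : 0 ≤ R) (he : 0 ≤ e)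
    (hN : 0 < N) (hC : 0 ≤ C) (hRC : 54 * C ≤ 36 * e * R) (hfar : ∀ x y, Far R x y → K x y = 0)
    (hK0 : ∀ x y, 0 ≤ K x y) (hKB : ∀ x y, K x y ≤ KB)
    (hbox : ∀ x y, ¬ Far (R + 1) x y → WW (fun a b => K a b + e * V2 a b) x y (-x - y) + 54 * C ≤
      54 * (K x y + e * V2 x y) + 54 * N * (if F x = true then 1 else 0))
    {π : PMF (Fin 3 → ℤ)} (hπ : IsStationary π) (i : Fin 3) :
    ENNReal.ofReal C ≤ ENNReal.ofReal N * prF π i F := by
  have hall := all_ineq K F R e N C he hN hRC hfar hbox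
  refine le_of_forall_pos_le_add fun ε hε => ?_
  by_cases hε' : ε = ⊤
  · rw [hε']; simp
  have hC1 : (0 : ℝ≥0∞) < ENNReal.ofReal (C + 1) := by
    rw [ENNReal.ofReal_pos]
    have : (0 : ℝ) ≤ C := by exact_mod_cast hC
    linarith
  obtain ⟨B, hB1, hB2⟩ := tail_zero π i (ε := ε / ENNReal.ofReal (C + 1))
    (ENNReal.div_pos hε.ne' ENNReal.ofReal_ne_top) (6 * (R + 2) ^ 2)
  refine (cert_B K F R e N C B KB hR he hN hC hB1 hfar hK0 hKB hall hπ i).trans ?_
  gcongr
  calc ENNReal.ofReal C * (∑' s : Fin 3 → ℤ, if B ≤ V2 (s i) (s (i + 1)) then π s else 0)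
      ≤ ENNReal.ofReal (C + 1) * (ε / ENNReal.ofReal (C + 1)) := by
        gcongr
        linarith
    _ = ε := ENNReal.mul_div_cancel hC1.ne' ENNReal.ofReal_ne_top

end Pool.Agent.H13.TB
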