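import Pool.Agent.H13.TB.Sum

/-!
# Two agents: the tail is at most `2 / 3 * (1 / 3) ^ M`
-/

set_option autoImplicit false

open scoped ENNReal BigOperators

namespace Pool.Agent.H13.TB

open Pool.Agent.H21.TB

theorem prov_sum2 (s : Fin 2 → ℤ) (G : Fin 2 → ℤ) :
    ∑ j₁ : Fin 2, ∑ j₂ : Fin 2, ∑ c : Bool, G (provider s j₁ j₂ c) =
      (2 + c4 (s 0) (s 1)) * G 0 + (2 + c4 (s 1) (s 0)) * G 1 := by
  have h01 := pair_sum s G 0 1
  have h0 := self_sum s G 0
  have h1 := self_sum s G 1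
  rw [Fin.sum_univ_two, Fin.sum_univ_two, Fin.sum_univ_two]
  linarith

/-- the value after a step with requester `r` and provider `p` -/
def G2 (h : ℤ → ℤ) (s : Fin 2 → ℤ) (i r p : Fin 2) : ℤ :=
  h (s i - (if i = r then 1 else 0) + (if i = p then 1 else 0))

theorem sum_draw2 (h : ℤ → ℤ) (s : Fin 2 → ℤ) (i : Fin 2) (hs : ∑ k, s k = 0) :
    ∑ ω : Draw 2, h (step s ω i) = (2 + c4 (s i) (-s i)) * (h (s i) + h (s i + 1)) +
      (2 + c4 (-s i) (s i)) * (h (s i - 1) + h (s i)) := by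
  have h1 : ∑ ω : Draw 2, h (step s ω i) =
      ∑ r : Fin 2, ∑ j₁ : Fin 2, ∑ j₂ : Fin 2, ∑ c : Bool, G2 h s i r (provider s j₁ j₂ c) := by
    rw [Fintype.sum_prod_type]
    refine Finset.sum_congr rfl fun r _ => ?_
    rw [Fintype.sum_prod_type]
    refine Finset.sum_congr rfl fun j₁ _ => ?_
    rw [Fintype.sum_prod_type]
    rfl
  rw [h1, Finset.sum_congr rfl (fun r _ => prov_sum2 s (G2 h s i r)), Fin.sum_univ_two]
  rw [Fin.sum_univ_two] at hs
  unfold G2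
  fin_cases i
  · have : s 1 = -s 0 := by linarith
    simp [this]
    ring
  · have : s 0 = -s 1 := by linarith
    simp [this]
    ring

/-- the probability that the balance is `k` in absolute value -/
noncomputable def uu (π : PMF (Fin 2 → ℤ)) (i : Fin 2) (k : ℕ) : ℝ≥0∞ :=
  ∑' s : Fin 2 → ℤ, if |s i| = (k : ℤ) then π s else 0

theorem pt1 (k x : ℤ) (hk : 1 ≤ k) :
    (2 + c4 x (-x)) * ((if k + 1 ≤ |x| then 1 else 0) + (if k + 1 ≤ |x + 1| then 1 else 0)) +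
      (2 + c4 (-x) x) * ((if k + 1 ≤ |x - 1| then 1 else 0) + (if k + 1 ≤ |x| then 1 else 0)) +
      6 * (if |x| = k + 1 then 1 else 0) ≤
    16 * (if k + 1 ≤ |x| then 1 else 0) + 2 * (if |x| = k then 1 else 0) := by
  unfold c4
  simp only [le_abs, abs_eq (by omega : (0 : ℤ) ≤ k), abs_eq (by omega : (0 : ℤ) ≤ k + 1)]
  split_ifs <;> omega

theorem pt0 (x : ℤ) :
    (2 + c4 x (-x)) * ((if (0 : ℤ) + 1 ≤ |x| then 1 else 0) + (if (0 : ℤ) + 1 ≤ |x + 1| then 1 else 0)) +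
      (2 + c4 (-x) x) * ((if (0 : ℤ) + 1 ≤ |x - 1| then 1 else 0) + (if (0 : ℤ) + 1 ≤ |x| then 1 else 0)) +
      6 * (if |x| = (0 : ℤ) + 1 then 1 else 0) ≤
    16 * (if (0 : ℤ) + 1 ≤ |x| then 1 else 0) + 8 * (if |x| = (0 : ℤ) then 1 else 0) := by
  unfold c4
  simp only [le_abs, abs_eq (by omega : (0 : ℤ) ≤ 0), abs_eq (by omega : (0 : ℤ) ≤ 0 + 1)]
  split_ifs <;> omega

theorem two_cut {π : PMF (Fin 2 → ℤ)} (hπ : IsStationary π) (i : Fin 2) (k : ℕ) (c : ℤ) (hc : 0 ≤ c)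
    (hk : ∀ x : ℤ, (2 + c4 x (-x)) * ((if (k : ℤ) + 1 ≤ |x| then 1 else 0) +
        (if (k : ℤ) + 1 ≤ |x + 1| then 1 else 0)) +
      (2 + c4 (-x) x) * ((if (k : ℤ) + 1 ≤ |x - 1| then 1 else 0) + (if (k : ℤ) + 1 ≤ |x| then 1 else 0)) +
      6 * (if |x| = (k : ℤ) + 1 then 1 else 0) ≤
      16 * (if (k : ℤ) + 1 ≤ |x| then 1 else 0) + c * (if |x| = (k : ℤ) then 1 else 0)) :
    ENNReal.ofReal (6 / 16) * uu π i (k + 1) ≤ ENNReal.ofReal ((c : ℝ) / 16) * uu π i k := by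
  have hc' : (0 : ℝ) ≤ c := by exact_mod_cast hc
  have key := drift hπ (by norm_num : 0 < 2)
    (fun s => ((if (k : ℤ) + 1 ≤ |s i| then 1 else 0 : ℤ) : ℝ))
    (fun s => (6 / 16 : ℝ) * (if |s i| = ((k + 1 : ℕ) : ℤ) then 1 else 0))
    (fun s => ((c : ℝ) / 16) * (if |s i| = (k : ℤ) then 1 else 0)) 1
    (fun s => by split_ifs <;> norm_num) (fun s => by split_ifs <;> norm_num)
    (fun s => by split_ifs <;> norm_num) (fun s => by split_ifs <;> positivity) ?_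
  · unfold uu
    rw [← ENNReal.tsum_mul_left, ← ENNReal.tsum_mul_left]
    refine le_trans (le_of_eq (tsum_congr fun s => ?_)) (key.trans (le_of_eq (tsum_congr fun s => ?_)))
    · split_ifs <;> simp [mul_comm]
    · split_ifs <;> simp [mul_comm]
  · intro s hs
    have h1 := sum_draw2 (fun x => if (k : ℤ) + 1 ≤ |x| then 1 else 0) s i hs
    have h2 : ∑ ω : Draw 2, (if (k : ℤ) + 1 ≤ |step s ω i| then 1 else 0 : ℤ) +
        6 * (if |s i| = (k : ℤ) + 1 then 1 else 0) ≤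
        16 * (if (k : ℤ) + 1 ≤ |s i| then 1 else 0) + c * (if |s i| = (k : ℤ) then 1 else 0) := by
      rw [h1]
      exact hk (s i)
    have h3 : ((∑ ω : Draw 2, (if (k : ℤ) + 1 ≤ |step s ω i| then 1 else 0 : ℤ) +
        6 * (if |s i| = (k : ℤ) + 1 then 1 else 0) : ℤ) : ℝ) ≤
        ((16 * (if (k : ℤ) + 1 ≤ |s i| then 1 else 0) + c * (if |s i| = (k : ℤ) then 1 else 0) : ℤ) : ℝ) := by
      exact_mod_cast h2
    rw [Int.cast_add, Int.cast_add, Int.cast_sum] at h3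
    unfold av
    have h5 : (2 * ((2 : ℕ) : ℝ) ^ 3) = 16 := by norm_num
    rw [h5]
    have h6 : ((6 * (if |s i| = (k : ℤ) + 1 then 1 else 0) : ℤ) : ℝ) =
      16 * ((6 / 16 : ℝ) * (if |s i| = ((k + 1 : ℕ) : ℤ) then 1 else 0)) := by
      push_cast
      split_ifs <;> norm_num
    have h7 : ((c * (if |s i| = (k : ℤ) then 1 else 0) : ℤ) : ℝ) =
      16 * (((c : ℝ) / 16) * (if |s i| = (k : ℤ) then 1 else 0)) := by
      split_ifs <;> push_cast <;> ring
    have h8 : ((16 * (if (k : ℤ) + 1 ≤ |s i| then 1 else 0) : ℤ) : ℝ) =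
      16 * ((if (k : ℤ) + 1 ≤ |s i| then 1 else 0 : ℤ) : ℝ) := by push_cast; ring
    rw [h6, h7, h8] at h3
    linarith

/-- the tail -/
noncomputable def TT (π : PMF (Fin 2 → ℤ)) (i : Fin 2) (M : ℕ) : ℝ≥0∞ :=
  ∑' s : Fin 2 → ℤ, if (M : ℤ) < |s i| then π s else 0

theorem TT_eq (π : PMF (Fin 2 → ℤ)) (i : Fin 2) (M : ℕ) :
    TT π i M = ∑' k : ℕ, uu π i (M + 1 + k) := by
  unfold uu TT
  rw [ENNReal.tsum_comm]
  refine tsum_congr fun s => ?_
  by_cases hs : (M : ℤ) < |s i|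
  · rw [if_pos hs, tsum_eq_single (|s i| - (M + 1)).toNat]
    · rw [if_pos (by push_cast; omega)]
    · intro k hk
      rw [if_neg (by push_cast; omega)]
  · rw [if_neg hs]
    symm
    rw [ENNReal.tsum_eq_zero]
    intro k
    rw [if_neg (by push_cast; omega)]

theorem uu_ne_top (π : PMF (Fin 2 → ℤ)) (i : Fin 2) (k : ℕ) : uu π i k ≠ ⊤ := tsum_ite_ne_top π _

theorem TT_ne_top (π : PMF (Fin 2 → ℤ)) (i : Fin 2) (k : ℕ) : TT π i k ≠ ⊤ := tsum_ite_ne_top π _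

theorem uu_succ {π : PMF (Fin 2 → ℤ)} (hπ : IsStationary π) (i : Fin 2) (k : ℕ) (hk : 1 ≤ k) :
    3 * uu π i (k + 1) ≤ uu π i k := by
  have h := two_cut hπ i k 2 (by norm_num) (fun x => pt1 k x (by exact_mod_cast hk))
  have h1 := ENNReal.toReal_mono (ENNReal.mul_ne_top ENNReal.ofReal_ne_top (uu_ne_top π i k)) h
  rw [ENNReal.toReal_mul, ENNReal.toReal_mul, ENNReal.toReal_ofReal (by norm_num),
    ENNReal.toReal_ofReal (by norm_num)] at h1
  rw [← ENNReal.toReal_le_toReal (ENNReal.mul_ne_top (by norm_num) (uu_ne_top π i _))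
    (uu_ne_top π i k), ENNReal.toReal_mul]
  norm_num at h1 ⊢
  linarith

theorem uu_one {π : PMF (Fin 2 → ℤ)} (hπ : IsStationary π) (i : Fin 2) :
    3 * (uu π i 1).toReal ≤ 4 * (uu π i 0).toReal := by
  have h := two_cut hπ i 0 8 (by norm_num) (fun x => by exact_mod_cast pt0 x)
  have h1 := ENNReal.toReal_mono (ENNReal.mul_ne_top ENNReal.ofReal_ne_top (uu_ne_top π i 0)) h
  rw [ENNReal.toReal_mul, ENNReal.toReal_mul, ENNReal.toReal_ofReal (by norm_num),
    ENNReal.toReal_ofReal (by norm_num)] at h1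
  norm_num at h1 ⊢
  linarith

theorem TT_succ {π : PMF (Fin 2 → ℤ)} (hπ : IsStationary π) (i : Fin 2) (M : ℕ) :
    3 * (TT π i (M + 1)).toReal ≤ (TT π i M).toReal := by
  have h : 3 * TT π i (M + 1) ≤ TT π i M := by
    rw [TT_eq, TT_eq, ← ENNReal.tsum_mul_left]
    refine ENNReal.tsum_le_tsum fun k => ?_
    have h1 := uu_succ hπ i (M + 1 + k) (by omega)
    have e : M + 1 + 1 + k = M + 1 + k + 1 := by ring
    rw [e]
    exact h1
  have h1 := ENNReal.toReal_mono (TT_ne_top π i M) h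
  rw [ENNReal.toReal_mul] at h1
  norm_num at h1
  exact h1

theorem TT_zero {π : PMF (Fin 2 → ℤ)} (hπ : IsStationary π) (i : Fin 2) :
    (TT π i 0).toReal ≤ 2 / 3 := by
  have h1 : uu π i 0 + TT π i 0 = 1 := by
    unfold uu TT
    rw [← ENNReal.tsum_add, ← π.tsum_coe]
    refine tsum_congr fun s => ?_
    by_cases h : |s i| = ((0 : ℕ) : ℤ)
    · rw [if_pos h, if_neg (by omega), add_zero]
    · have := abs_nonneg (s i)
      rw [if_neg h, if_pos (by push_cast at h ⊢; omega), zero_add]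
  have h2 : TT π i 0 = uu π i 1 + TT π i 1 := by
    unfold uu TT
    rw [← ENNReal.tsum_add]
    refine tsum_congr fun s => ?_
    by_cases h : |s i| = ((1 : ℕ) : ℤ)
    · rw [if_pos h, if_pos (by push_cast at h ⊢; omega), if_neg (by omega), add_zero]
    · have := abs_nonneg (s i)
      by_cases h' : ((0 : ℕ) : ℤ) < |s i|
      · rw [if_neg h, if_pos h', if_pos (by push_cast at h h' ⊢; omega), zero_add]
      · rw [if_neg h, if_neg h', if_neg (by push_cast at h h' ⊢; omega), zero_add]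
  have h3 := congrArg ENNReal.toReal h1
  have h4 := congrArg ENNReal.toReal h2
  rw [ENNReal.toReal_add (uu_ne_top π i _) (TT_ne_top π i _)] at h3 h4
  have h5 := uu_one hπ i
  have h6 := TT_succ hπ i 0
  rw [zero_add] at h6
  norm_num at h3
  linarith

/-- the tail for two agents -/
theorem two_tail {π : PMF (Fin 2 → ℤ)} (hπ : IsStationary π) (i : Fin 2) (M : ℕ) :
    tail π i M ≤ 2 / 3 * (1 / 3) ^ M := by
  change (TT π i M).toReal ≤ _
  induction M with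
  | zero => simpa using TT_zero hπ i
  | succ M ih =>
    have h1 := TT_succ hπ i M
    have e : (2 / 3 : ℝ) * (1 / 3) ^ (M + 1) = (2 / 3 * (1 / 3) ^ M) / 3 := by ring
    rw [e]
    linarith

end Pool.Agent.H13.TB
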