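import Pool.Agent.H13.TB.Data
import Pool.Agent.H13.TB.Two

/-!
# Two and three agents
-/

set_option autoImplicit false

open scoped ENNReal BigOperators

namespace Pool.Agent.H13.TB

open Pool.Agent.H21.TB

theorem tail_eq (π : PMF (Fin 3 → ℤ)) (i : Fin 3) (M : ℕ) (F : ℤ → Bool)
    (hF : ∀ x : ℤ, F x = true ↔ (M : ℤ) < |x|) : tail π i M = (prF π i F).toReal := by
  unfold tail prF
  congr 1
  refine tsum_congr fun s => ?_
  by_cases h : (M : ℤ) < |s i|
  · rw [if_pos h, if_pos ((hF _).2 h)]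
  · rw [if_neg h, if_neg (fun hh => h ((hF _).1 hh))]

theorem real_bound {π : PMF (Fin 3 → ℤ)} {i : Fin 3} {F : ℤ → Bool} {N C : ℤ} (hN : 0 < N)
    (hC : 0 ≤ C) (h : ENNReal.ofReal ((C : ℤ) : ℝ) ≤ ENNReal.ofReal ((N : ℤ) : ℝ) * prF π i F) :
    (C : ℝ) / N ≤ (prF π i F).toReal := by
  have hN' : (0 : ℝ) < N := by exact_mod_cast hN
  have hC' : (0 : ℝ) ≤ C := by exact_mod_cast hC
  have h1 : prF π i F ≠ ⊤ := tsum_ite_ne_top π _
  have h2 := ENNReal.toReal_mono (ENNReal.mul_ne_top ENNReal.ofReal_ne_top h1) h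
  rw [ENNReal.toReal_mul, ENNReal.toReal_ofReal hC', ENNReal.toReal_ofReal hN'.le] at h2
  rw [div_le_iff₀ hN']
  linarith

theorem three_tail {π : PMF (Fin 3 → ℤ)} (hπ : IsStationary π) (i : Fin 3) (M : ℕ) (hM : 1 ≤ M) :
    2 / 3 * (1 / 3) ^ M < tail π i M := by
  by_cases h4 : 4 ≤ M
  · have h1 := real_bound (by norm_num) (by norm_num) (bound_l1 hπ i)
    have h2 : (prF π i Fl1).toReal = (cum π i (-2)).toReal := by
      unfold prF cum Fl1
      congr 1
      refine tsum_congr fun s => ?_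
      by_cases h : s i ≤ -2
      · rw [if_pos h, if_pos (decide_eq_true (by omega))]
      · rw [if_neg h, if_neg (fun hh => h (by have := of_decide_eq_true hh; omega))]
    rw [h2] at h1
    have h3 := cum_iter hπ (by norm_num : 2 ≤ 3) i (-2) (M - 1)
    have e : (-2 : ℤ) - ((M - 1 : ℕ) : ℤ) = -(M + 1 : ℤ) := by omega
    rw [e] at h3
    have h5 := ENNReal.toReal_mono (cum_ne_top π i _) h3
    have h6 := cum_le_tail π i M
    rw [ENNReal.toReal_mul, ENNReal.toReal_pow, ENNReal.toReal_ofReal (by norm_num)] at h5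
    obtain ⟨j, rfl⟩ : ∃ j, M = j + 4 := ⟨M - 4, by omega⟩
    have e2 : j + 4 - 1 = j + 3 := by omega
    rw [e2] at h5
    have h7 : (((3 : ℕ) : ℝ) - 1) / (2 * ((3 : ℕ) : ℝ) - 1) = 2 / 5 := by norm_num
    rw [h7] at h5
    have h8 : (1 / 3 : ℝ) ^ j ≤ (2 / 5) ^ j := pow_le_pow_left₀ (by norm_num) (by norm_num) j
    have h9 : (0 : ℝ) < (2 / 5) ^ j := by positivity
    have h10 : (13 / 100 : ℝ) ≤ (cum π i (-2)).toReal := by
      refine le_trans ?_ h1
      norm_num
    calc (2 / 3 : ℝ) * (1 / 3) ^ (j + 4) = 2 / 243 * (1 / 3) ^ j := by ring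
      _ ≤ 2 / 243 * (2 / 5) ^ j := by gcongr
      _ < (8 / 125 * (13 / 100)) * (2 / 5) ^ j := by
          apply mul_lt_mul_of_pos_right _ h9
          norm_num
      _ = (2 / 5) ^ (j + 3) * (13 / 100) := by ring
      _ ≤ (2 / 5) ^ (j + 3) * (cum π i (-2)).toReal := by gcongr
      _ ≤ _ := h5.trans h6
  · have h5 : M = 1 ∨ M = 2 ∨ M = 3 := by omega
    rcases h5 with rfl | rfl | rfl
    · rw [tail_eq π i 1 FT1 (fun x => by
        unfold FT1; rw [Bool.or_eq_true, decide_eq_true_iff, decide_eq_true_iff, lt_abs]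
        push_cast; omega)]
      have h1 := real_bound (by norm_num) (by norm_num) (bound_T1 hπ i)
      norm_num at h1 ⊢
      linarith
    · rw [tail_eq π i 2 FT2 (fun x => by
        unfold FT2; rw [Bool.or_eq_true, decide_eq_true_iff, decide_eq_true_iff, lt_abs]
        push_cast; omega)]
      have h1 := real_bound (by norm_num) (by norm_num) (bound_T2 hπ i)
      norm_num at h1 ⊢
      linarith
    · rw [tail_eq π i 3 FT3 (fun x => by
        unfold FT3; rw [Bool.or_eq_true, decide_eq_true_iff, decide_eq_true_iff, lt_abs]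
        push_cast; omega)]
      have h1 := real_bound (by norm_num) (by norm_num) (bound_T3 hπ i)
      norm_num at h1 ⊢
      linarith

/-- the comparison -/
theorem two_three {π : PMF (Fin 2 → ℤ)} {π' : PMF (Fin 3 → ℤ)} (hπ : IsStationary π)
    (hπ' : IsStationary π') (i : Fin 2) (i' : Fin 3) (M : ℕ) (hM : 1 ≤ M) :
    balProb π' i' M < balProb π i M := by
  rw [balProb_eq, balProb_eq]
  have h1 := two_tail hπ i M
  have h2 := three_tail hπ' i' M hM
  linarith

end Pool.Agent.H13.TB
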