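import Pool.Agent.H21.TB.Lower

/-!
# Three agents: one step averages
-/

set_option autoImplicit false

open scoped ENNReal BigOperators

namespace Pool.Agent.H13.TB

open Pool.Agent.H21.TB

/-- weight of a pair of available agents -/
def c4 (u v : ℤ) : ℤ := if u < v then 4 else if v < u then 0 else 2

theorem c4_add2 (u v : ℤ) : c4 u v + c4 v u = 4 := by
  unfold c4
  rcases lt_trichotomy u v with h | h | h
  · rw [if_pos h, if_neg h.not_gt, if_pos h]; norm_num
  · have h1 : ¬ u < v := by omega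
    have h2 : ¬ v < u := by omega
    rw [if_neg h1, if_neg h2, if_neg h2, if_neg h1]; norm_num
  · rw [if_neg h.not_gt, if_pos h, if_pos h]; norm_num

theorem pair_sum {n : ℕ} (s : Fin n → ℤ) (G : Fin n → ℤ) (j k : Fin n) :
    (∑ c : Bool, G (provider s j k c)) + (∑ c : Bool, G (provider s k j c)) =
      c4 (s j) (s k) * G j + c4 (s k) (s j) * G k := by
  simp only [Fintype.sum_bool]
  unfold provider c4
  rcases lt_trichotomy (s j) (s k) with h | h | h
  · rw [if_pos h, if_pos h, if_neg h.not_gt, if_neg h.not_gt, if_pos h, if_pos h, if_pos h,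
      if_neg h.not_gt, if_pos h]
    ring
  · have h1 : ¬ s j < s k := by omega
    have h2 : ¬ s k < s j := by omega
    simp only [h1, h2, if_false, if_true]
    simp
    ring
  · rw [if_neg h.not_gt, if_neg h.not_gt, if_pos h, if_pos h, if_pos h, if_pos h,
      if_neg h.not_gt, if_pos h, if_pos h]
    ring

theorem self_sum {n : ℕ} (s : Fin n → ℤ) (G : Fin n → ℤ) (j : Fin n) :
    (∑ c : Bool, G (provider s j j c)) = 2 * G j := by
  simp only [Fintype.sum_bool]
  unfold provider
  simp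
  ring

theorem prov_sum (s : Fin 3 → ℤ) (G : Fin 3 → ℤ) :
    ∑ j₁ : Fin 3, ∑ j₂ : Fin 3, ∑ c : Bool, G (provider s j₁ j₂ c) =
      (2 + c4 (s 0) (s 1) + c4 (s 0) (s 2)) * G 0 + (2 + c4 (s 1) (s 0) + c4 (s 1) (s 2)) * G 1 +
        (2 + c4 (s 2) (s 0) + c4 (s 2) (s 1)) * G 2 := by
  have h01 := pair_sum s G 0 1
  have h02 := pair_sum s G 0 2
  have h12 := pair_sum s G 1 2
  have h0 := self_sum s G 0
  have h1 := self_sum s G 1
  have h2 := self_sum s G 2
  rw [Fin.sum_univ_three, Fin.sum_univ_three, Fin.sum_univ_three, Fin.sum_univ_three]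
  linarith

/-- the sum over the 54 draws of `H` (balance of `i`, balance of `i + 1`) -/
def WW (H : ℤ → ℤ → ℤ) (x y z : ℤ) : ℤ :=
  (2 + c4 x y + c4 x z) * (H x y + H (x + 1) (y - 1) + H (x + 1) y) +
    (2 + c4 y x + c4 y z) * (H (x - 1) (y + 1) + H x y + H x (y + 1)) +
    (2 + c4 z x + c4 z y) * (H (x - 1) y + H x (y - 1) + H x y)

/-- the value after a step with requester `r` and provider `p` -/
def GG (H : ℤ → ℤ → ℤ) (s : Fin 3 → ℤ) (i r p : Fin 3) : ℤ :=
  H (s i - (if i = r then 1 else 0) + (if i = p then 1 else 0))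
    (s (i + 1) - (if i + 1 = r then 1 else 0) + (if i + 1 = p then 1 else 0))

theorem sum_draw3 (H : ℤ → ℤ → ℤ) (s : Fin 3 → ℤ) (i : Fin 3) :
    ∑ ω : Draw 3, H (step s ω i) (step s ω (i + 1)) = WW H (s i) (s (i + 1)) (s (i + 2)) := by
  have h1 : ∑ ω : Draw 3, H (step s ω i) (step s ω (i + 1)) =
      ∑ r : Fin 3, ∑ j₁ : Fin 3, ∑ j₂ : Fin 3, ∑ c : Bool, GG H s i r (provider s j₁ j₂ c) := by
    rw [Fintype.sum_prod_type]
    refine Finset.sum_congr rfl fun r _ => ?_
    rw [Fintype.sum_prod_type]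
    refine Finset.sum_congr rfl fun j₁ _ => ?_
    rw [Fintype.sum_prod_type]
    rfl
  rw [h1, Finset.sum_congr rfl (fun r _ => prov_sum s (GG H s i r)), Fin.sum_univ_three]
  unfold WW GG
  fin_cases i
  · simp
    ring
  · simp
    ring
  · simp
    ring

end Pool.Agent.H13.TB
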