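import Pool.Agent.H13.TB.Int

/-!
# Three agents: test functions given by tables
-/

set_option autoImplicit false

open scoped ENNReal BigOperators

namespace Pool.Agent.H13.TB

open Pool.Agent.H21.TB

/-- entry of a table -/
def look (t : List (List ℕ)) (R a b : ℤ) : ℤ :=
  if -R ≤ a ∧ a ≤ R ∧ -R ≤ b ∧ b ≤ R ∧ -R ≤ a + b ∧ a + b ≤ R then
    (((t.getD (a + R).toNat []).getD (b + R).toNat 0 : ℕ) : ℤ) else 0

/-- the test function -/
def HH (t : List (List ℕ)) (R e a b : ℤ) : ℤ := look t R a b + e * (a * a + b * b + (a + b) * (a + b))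

/-- the inequality at one state -/
def chk1 (t : List (List ℕ)) (F : ℤ → Bool) (R e N C x y : ℤ) : Bool :=
  decide (R + 1 < x + y) || decide (x + y < -(R + 1)) ||
    decide (WW (HH t R e) x y (-x - y) + 54 * C ≤ 54 * HH t R e x y + 54 * N * (if F x = true then 1 else 0))

/-- the inequality at all states of a box, and a bound for the entries -/
def chk (t : List (List ℕ)) (F : ℤ → Bool) (R e N C : ℤ) (KB : ℕ) : Bool :=
  ((List.range (2 * R + 3).toNat).all fun a => (List.range (2 * R + 3).toNat).all fun b =>
    chk1 t F R e N C ((a : ℤ) - (R + 1)) ((b : ℤ) - (R + 1))) && (t.all fun r => r.all fun a => decide (a ≤ KB))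

theorem HH_eq (t : List (List ℕ)) (R e : ℤ) : HH t R e = fun a b => look t R a b + e * V2 a b := by
  funext a b
  unfold HH V2
  ring

theorem getD_le {r : List ℕ} {KB : ℕ} (h : ∀ a ∈ r, a ≤ KB) (j : ℕ) : r.getD j 0 ≤ KB := by
  by_cases hj : j < r.length
  · rw [List.getD_eq_getElem _ _ hj]
    exact h _ (List.getElem_mem hj)
  · rw [List.getD_eq_default _ _ (by omega)]
    exact Nat.zero_le _

theorem of_chk {t : List (List ℕ)} {F : ℤ → Bool} {R e N C : ℤ} {KB : ℕ}
    (h : chk t F R e N C KB = true) (hR : 0 ≤ R) (he : 0 ≤ e)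
    (hN : 0 < N) (hC : 0 ≤ C) (hRC : 54 * C ≤ 36 * e * R)
    {π : PMF (Fin 3 → ℤ)} (hπ : IsStationary π) (i : Fin 3) :
    ENNReal.ofReal C ≤ ENNReal.ofReal N * prF π i F := by
  unfold chk at h
  rw [Bool.and_eq_true] at h
  obtain ⟨h1, h2⟩ := h
  rw [List.all_eq_true] at h1 h2
  refine cert (look t R) F R e N C KB hR he hN hC hRC ?_ ?_ ?_ ?_ hπ i
  · intro x y hF
    unfold look
    rw [if_neg]
    unfold Far at hF
    omega
  · intro x y
    unfold look
    split_ifs
    · exact Int.natCast_nonneg _
    · exact le_rfl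
  · intro x y
    unfold look
    split_ifs
    · have h3 : ∀ a ∈ t.getD (x + R).toNat [], a ≤ KB := by
        by_cases hj : (x + R).toNat < t.length
        · rw [List.getD_eq_getElem _ _ hj]
          have := h2 _ (List.getElem_mem hj)
          rw [List.all_eq_true] at this
          intro a ha
          exact of_decide_eq_true (this a ha)
        · rw [List.getD_eq_default _ _ (by omega)]
          intro a ha
          simp at ha
      exact_mod_cast getD_le h3 _
    · exact Int.natCast_nonneg _
  · intro x y hF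
    unfold Far at hF
    push Not at hF
    obtain ⟨f1, f2, f3, f4, f5, f6⟩ := hF
    have h3 := h1 (x + (R + 1)).toNat (List.mem_range.2 (by omega))
    rw [List.all_eq_true] at h3
    have h4 := h3 (y + (R + 1)).toNat (List.mem_range.2 (by omega))
    have e1 : (((x + (R + 1)).toNat : ℕ) : ℤ) - (R + 1) = x := by omega
    have e2 : (((y + (R + 1)).toNat : ℕ) : ℤ) - (R + 1) = y := by omega
    rw [e1, e2] at h4
    unfold chk1 at h4
    rw [Bool.or_eq_true, Bool.or_eq_true] at h4
    rcases h4 with (h4 | h4) | h4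
    · exact absurd (of_decide_eq_true h4) (by omega)
    · exact absurd (of_decide_eq_true h4) (by omega)
    · have h5 := of_decide_eq_true h4
      rw [HH_eq] at h5
      exact h5

end Pool.Agent.H13.TB
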